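import Mathlib

set_option autoImplicit false
open MeasureTheory Filter Topology Set
open scoped ENNReal

namespace Pool.Agent.H.MP_816d1e_an

theorem kern_eq {Ω : Type} [MeasurableSpace Ω] (W : Measure Ω) [SFinite W] (φ : Ω → ℝ → ℝ≥0∞)
    (hφ : Measurable (Function.uncurry φ)) (ν ρ : Measure ℝ) [SFinite ν] [SFinite ρ] :
    ∫⁻ x, ∫⁻ y, ∫⁻ ω, φ ω x * φ ω y ∂W ∂ρ ∂ν
      = ∫⁻ ω, (∫⁻ x, φ ω x ∂ν) * (∫⁻ y, φ ω y ∂ρ) ∂W := by
  have h1 : ∀ x, Measurable (fun ω => φ ω x) := fun x => hφ.comp (by fun_prop : Measurable (fun ω : Ω => (ω, x)))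
  have h2 : ∀ ω, Measurable (φ ω) := fun ω => hφ.comp (by fun_prop : Measurable (fun x : ℝ => (ω, x)))
  have h3 : Measurable (fun p : ℝ × Ω => φ p.2 p.1) := hφ.comp measurable_swap
  have h4 : Measurable (fun ω => ∫⁻ y, φ ω y ∂ρ) := hφ.lintegral_prod_right'
  have e1 : ∀ x, ∫⁻ y, ∫⁻ ω, φ ω x * φ ω y ∂W ∂ρ = ∫⁻ ω, φ ω x * ∫⁻ y, φ ω y ∂ρ ∂W := by
    intro x
    rw [lintegral_lintegral_swap]
    · exact lintegral_congr (fun ω => lintegral_const_mul _ (h2 ω))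
    · exact (((h1 x).comp measurable_snd).mul h3).aemeasurable
  simp only [e1]
  rw [lintegral_lintegral_swap]
  · exact lintegral_congr (fun ω => lintegral_mul_const _ (h2 ω))
  · exact (h3.mul (h4.comp measurable_snd)).aemeasurable

theorem two_mul_le (a b : ℝ≥0∞) : a * b + a * b ≤ a * a + b * b := by
  by_cases ha : a = ⊤
  · subst ha; simp
  by_cases hb : b = ⊤
  · subst hb; simp
  lift a to NNReal using ha
  lift b to NNReal using hb
  norm_cast
  have : (a : ℝ) * b + a * b ≤ a * a + b * b := by nlinarith [sq_nonneg ((a : ℝ) - b)]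
  exact_mod_cast this

theorem kern_psd {Ω : Type} [MeasurableSpace Ω] (W : Measure Ω) [SFinite W] (φ : Ω → ℝ → ℝ≥0∞)
    (hφ : Measurable (Function.uncurry φ)) (ν ρ : Measure ℝ) [SFinite ν] [SFinite ρ] :
    ∫⁻ x, ∫⁻ y, ∫⁻ ω, φ ω x * φ ω y ∂W ∂ρ ∂ν + ∫⁻ x, ∫⁻ y, ∫⁻ ω, φ ω x * φ ω y ∂W ∂ρ ∂ν
      ≤ ∫⁻ x, ∫⁻ y, ∫⁻ ω, φ ω x * φ ω y ∂W ∂ν ∂ν + ∫⁻ x, ∫⁻ y, ∫⁻ ω, φ ω x * φ ω y ∂W ∂ρ ∂ρ := by
  have h4 : Measurable (fun ω => ∫⁻ y, φ ω y ∂ρ) := hφ.lintegral_prod_right'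
  have h5 : Measurable (fun ω => ∫⁻ y, φ ω y ∂ν) := hφ.lintegral_prod_right'
  simp only [kern_eq W φ hφ]
  rw [← lintegral_add_left (h5.fun_mul h4), ← lintegral_add_left (h5.fun_mul h5)]
  exact lintegral_mono (fun ω => two_mul_le _ _)

noncomputable def ph (ω : ℝ × ℝ) (x : ℝ) : ℝ≥0∞ := (Icc ω.2 (ω.2 + ω.1)).indicator 1 x

theorem ph_meas : Measurable (Function.uncurry ph) := by
  have : Function.uncurry ph
      = ({p : (ℝ × ℝ) × ℝ | p.1.2 ≤ p.2} ∩ {p | p.2 ≤ p.1.2 + p.1.1}).indicator 1 := by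
    ext ⟨ω, x⟩
    simp [ph, Set.indicator]
  rw [this]
  exact measurable_one.indicator
    ((measurableSet_le (by fun_prop) (by fun_prop)).inter (measurableSet_le (by fun_prop) (by fun_prop)))

theorem ph_int (r x y : ℝ) : ∫⁻ u, ph (r, u) x * ph (r, u) y = ENNReal.ofReal (r - |x - y|) := by
  have : (fun u => ph (r, u) x * ph (r, u) y) = (Icc (max x y - r) (min x y)).indicator 1 := by
    ext u
    by_cases h : u ∈ Icc (max x y - r) (min x y)
    · have h1 := h.1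
      have h2 := h.2
      have hx : x ∈ Icc u (u + r) := ⟨h2.trans (min_le_left _ _), by linarith [le_max_left x y]⟩
      have hy : y ∈ Icc u (u + r) := ⟨h2.trans (min_le_right _ _), by linarith [le_max_right x y]⟩
      simp [ph, Set.indicator_of_mem hx, Set.indicator_of_mem hy, Set.indicator_of_mem h]
    · rw [Set.indicator_of_notMem h]
      by_cases hx : x ∈ Icc u (u + r)
      · by_cases hy : y ∈ Icc u (u + r)
        · exact absurd ⟨by linarith [max_le hx.2 hy.2], le_min hx.1 hy.1⟩ h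
        · simp [ph, Set.indicator_of_notMem hy]
      · simp [ph, Set.indicator_of_notMem hx]
  rw [this, lintegral_indicator_one measurableSet_Icc, Real.volume_Icc]
  congr 1
  rw [← max_sub_min_eq_abs]
  rw [max_comm x y, min_comm x y]
  ring

noncomputable def Wr (R : ℝ) : Measure ℝ :=
  ENNReal.ofReal R⁻¹ • Measure.dirac R
    + (volume.restrict (Ioo 0 R)).withDensity (fun r => ENNReal.ofReal ((r ^ 2)⁻¹))

instance (R : ℝ) : SFinite (Wr R) := by unfold Wr; infer_instance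

theorem Wr_int {R t : ℝ} (ht : 0 < t) (htR : t ≤ R) :
    ∫⁻ r, ENNReal.ofReal (r - t) ∂(Wr R) = ENNReal.ofReal (Real.log R - Real.log t) := by
  have hR : 0 < R := ht.trans_le htR
  have hm : Measurable (fun r : ℝ => ENNReal.ofReal (r - t)) := by fun_prop
  rw [Wr, lintegral_add_measure, lintegral_smul_measure, lintegral_dirac' _ hm,
    lintegral_withDensity_eq_lintegral_mul _ (by fun_prop) hm]
  have e1 : ((fun r : ℝ => ENNReal.ofReal ((r ^ 2)⁻¹)) * fun r : ℝ => ENNReal.ofReal (r - t))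
      = (Ioi t).indicator (fun r => ENNReal.ofReal ((r ^ 2)⁻¹ * (r - t))) := by
    ext r
    rw [Pi.mul_apply, ← ENNReal.ofReal_mul (by positivity)]
    by_cases h : r ∈ Ioi t
    · rw [Set.indicator_of_mem h]
    · rw [Set.indicator_of_notMem h]
      have : r - t ≤ 0 := by simpa using h
      exact ENNReal.ofReal_of_nonpos (mul_nonpos_of_nonneg_of_nonpos (by positivity) this)
  have e2 : Ioi t ∩ Ioo 0 R = Ioo t R := by
    ext r
    simp only [mem_inter_iff, mem_Ioi, mem_Ioo]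
    exact ⟨fun h => ⟨h.1, h.2.2⟩, fun h => ⟨h.1, ht.trans h.1, h.2⟩⟩
  have hc : ContinuousOn (fun r : ℝ => (r ^ 2)⁻¹ * (r - t)) (Icc t R) := by
    refine ContinuousOn.mul (ContinuousOn.inv₀ (by fun_prop) (fun r hr => ?_)) (by fun_prop)
    exact (pow_pos (ht.trans_le hr.1) 2).ne'
  have hi : IntegrableOn (fun r : ℝ => (r ^ 2)⁻¹ * (r - t)) (Ioo t R) :=
    hc.integrableOn_Icc.mono_set Ioo_subset_Icc_self
  rw [e1, lintegral_indicator measurableSet_Ioi, Measure.restrict_restrict measurableSet_Ioi, e2,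
    ← ofReal_integral_eq_lintegral_ofReal hi]
  · have e3 : ∫ r in Ioo t R, (r ^ 2)⁻¹ * (r - t)
        = (Real.log R + t * R⁻¹) - (Real.log t + t * t⁻¹) := by
      rw [← integral_Ioc_eq_integral_Ioo, ← intervalIntegral.integral_of_le htR]
      refine intervalIntegral.integral_eq_sub_of_hasDerivAt (f := fun r => Real.log r + t * r⁻¹)
        (fun r hr => ?_) ?_
      · rw [uIcc_of_le htR] at hr
        have hr0 : r ≠ 0 := (ht.trans_le hr.1).ne'
        have := (Real.hasDerivAt_log hr0).fun_add ((hasDerivAt_inv hr0).const_mul t)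
        convert this using 1
        field_simp
        ring
      · exact (by rwa [uIcc_of_le htR] : ContinuousOn _ (uIcc t R)).intervalIntegrable
    have h0 : 0 ≤ ∫ r in Ioo t R, (r ^ 2)⁻¹ * (r - t) :=
      setIntegral_nonneg measurableSet_Ioo (fun r hr => mul_nonneg (by positivity) (by linarith [hr.1]))
    rw [smul_eq_mul, ← ENNReal.ofReal_mul (by positivity),
      ← ENNReal.ofReal_add (mul_nonneg (by positivity) (by linarith)) h0, e3]
    congr 1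
    field_simp
    ring
  · exact (ae_restrict_iff' measurableSet_Ioo).mpr
      (ae_of_all _ (fun r hr => mul_nonneg (by positivity) (by linarith [hr.1])))

noncomputable def kk (R x y : ℝ) : ℝ≥0∞ :=
  if x = y then ⊤ else ENNReal.ofReal (Real.log R - Real.log (dist x y))

theorem rep_eq {R x y : ℝ} (hxy : x ≠ y) (h : |x - y| ≤ R) :
    ∫⁻ ω, ph ω x * ph ω y ∂((Wr R).prod volume) = kk R x y := by
  have h1 : ∀ x, Measurable (fun ω => ph ω x) := fun x =>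
    ph_meas.comp (by fun_prop : Measurable (fun ω : ℝ × ℝ => (ω, x)))
  rw [lintegral_prod _ ((h1 x).fun_mul (h1 y)).aemeasurable]
  simp only [ph_int]
  rw [Wr_int (abs_pos.mpr (sub_ne_zero.mpr hxy)) h, kk, if_neg hxy, Real.dist_eq]

theorem energy_min (K : Set ℝ) (R : ℝ) (hK : ∀ x ∈ K, ∀ y ∈ K, |x - y| ≤ R)
    (μ ν : Measure ℝ) [IsProbabilityMeasure μ] [IsProbabilityMeasure ν] [NullSingletonClass μ]
    (hμ : μ Kᶜ = 0) (hν : ν Kᶜ = 0) (c : ℝ≥0∞) (hc : c ≠ ⊤)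
    (hU : ∀ x ∈ K, ∫⁻ y, kk R x y ∂μ = c) :
    ∫⁻ x, ∫⁻ y, kk R x y ∂μ ∂μ = c ∧ c ≤ ∫⁻ x, ∫⁻ y, kk R x y ∂ν ∂ν := by
  have aμ : ∀ᵐ x ∂μ, x ∈ K := hμ
  have aν : ∀ᵐ x ∂ν, x ∈ K := hν
  have h1 : ∀ x ∈ K, ∫⁻ y, ∫⁻ ω, ph ω x * ph ω y ∂((Wr R).prod volume) ∂μ = c := by
    intro x hx
    rw [← hU x hx]
    refine lintegral_congr_ae ?_
    have : ∀ᵐ y ∂μ, y ≠ x := Measure.ae_ne μ x
    filter_upwards [aμ, this] with y hy hne
    exact rep_eq hne.symm (hK x hx y hy)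
  have h2 : ∀ (ρ : Measure ℝ) [IsProbabilityMeasure ρ], (∀ᵐ x ∂ρ, x ∈ K) →
      ∫⁻ x, ∫⁻ y, ∫⁻ ω, ph ω x * ph ω y ∂((Wr R).prod volume) ∂μ ∂ρ = c := by
    intro ρ _ hρ
    rw [lintegral_congr_ae (g := fun _ => c) (hρ.mono h1)]
    simp
  have h3 : ∫⁻ x, ∫⁻ y, ∫⁻ ω, ph ω x * ph ω y ∂((Wr R).prod volume) ∂ν ∂ν
      ≤ ∫⁻ x, ∫⁻ y, kk R x y ∂ν ∂ν := by
    refine lintegral_mono_ae (aν.mono (fun x hx => lintegral_mono_ae (aν.mono (fun y hy => ?_))))
    by_cases hxy : x = y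
    · simp [kk, hxy]
    · exact (rep_eq hxy (hK x hx y hy)).le
  have h4 := kern_psd ((Wr R).prod volume) ph ph_meas ν μ
  rw [h2 ν aν, h2 μ aμ] at h4
  refine ⟨?_, ((ENNReal.add_le_add_iff_right hc).mp h4).trans h3⟩
  rw [lintegral_congr_ae (g := fun _ => c) (aμ.mono hU)]
  simp

end Pool.Agent.H.MP_816d1e_an
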