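import Mathlib

set_option autoImplicit false
open Real Set

namespace Pool.Agent.H.MP_816d1e_an

theorem cos_low {α β ε : ℝ} (hε : 0 ≤ ε) (_hε2 : ε ≤ π / 2) (h1 : ε ≤ (α + β) / 2)
    (h2 : (α + β) / 2 ≤ π - ε) (h3 : |α - β| ≤ π) :
    4 * ε * |α - β| / π ^ 2 ≤ |cos α - cos β| := by
  have hpi := pi_pos
  have s1 : 2 / π * ε ≤ sin ((α + β) / 2) := by
    rcases le_total ((α + β) / 2) (π / 2) with h | h
    · exact (mul_le_mul_of_nonneg_left h1 (by positivity)).trans (mul_le_sin (by linarith) h)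
    · rw [← sin_pi_sub]
      exact (mul_le_mul_of_nonneg_left (by linarith) (by positivity)).trans
        (mul_le_sin (x := π - (α + β) / 2) (by linarith) (by linarith))
  have s2 : 2 / π * |(α - β) / 2| ≤ |sin ((α - β) / 2)| :=
    mul_abs_le_abs_sin (by rw [abs_div, abs_two]; linarith)
  rw [abs_div, abs_two] at s2
  rw [cos_sub_cos, abs_mul, abs_mul, abs_neg, abs_two]
  have s3 : 2 / π * ε ≤ |sin ((α + β) / 2)| := s1.trans (le_abs_self _)
  calc 4 * ε * |α - β| / π ^ 2 = 2 * (2 / π * ε) * (2 / π * (|α - β| / 2)) := by field_simp; ring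
    _ ≤ _ := by
      refine mul_le_mul (mul_le_mul_of_nonneg_left s3 (by norm_num)) s2 (by positivity) (by positivity)

noncomputable def ang (N i : ℕ) (y : ℝ) : ℝ := arccos ((-1) ^ i * (y / (N : ℝ) ^ 2))

noncomputable def th (N i : ℕ) (y : ℝ) : ℝ := (ang N i y + i * π) / N

noncomputable def gg (N i : ℕ) (y : ℝ) : ℝ := cos (th N i y)

noncomputable def ff (N : ℕ) (x : ℝ) : ℝ := (N : ℝ) ^ 2 * (Polynomial.Chebyshev.T ℝ N).eval x

theorem w_le {N : ℕ} (hN : 3 ≤ N) (i : ℕ) {y : ℝ} (hy : |y| ≤ 1) :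
    |(-1 : ℝ) ^ i * (y / (N : ℝ) ^ 2)| ≤ 1 / 2 := by
  have h3 : (3 : ℝ) ≤ N := by exact_mod_cast hN
  rw [abs_mul, abs_pow, abs_neg, abs_one, one_pow, one_mul, abs_div, abs_of_pos (by positivity : (0 : ℝ) < (N : ℝ) ^ 2),
    div_le_iff₀ (by positivity)]
  nlinarith

theorem ang_mem {N : ℕ} (hN : 3 ≤ N) (i : ℕ) {y : ℝ} (hy : |y| ≤ 1) :
    π / 3 ≤ ang N i y ∧ ang N i y ≤ π - π / 3 := by
  have h := abs_le.mp (w_le hN i hy)
  have hpi := pi_pos
  have e : arccos (1 / 2) = π / 3 := by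
    rw [← cos_pi_div_three, arccos_cos (by linarith) (by linarith)]
  constructor
  · rw [← e]; exact arccos_le_arccos h.2
  · rw [← e, ← arccos_neg]; exact arccos_le_arccos h.1

theorem cos_ang {N : ℕ} (hN : 3 ≤ N) (i : ℕ) {y : ℝ} (hy : |y| ≤ 1) :
    cos (ang N i y) = (-1) ^ i * (y / (N : ℝ) ^ 2) := by
  have h := abs_le.mp (w_le hN i hy)
  exact cos_arccos (by linarith) (by linarith)

theorem cos_ang_sub {N : ℕ} (hN : 3 ≤ N) (i : ℕ) {y y' : ℝ} (hy : |y| ≤ 1) (hy' : |y'| ≤ 1) :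
    |cos (ang N i y) - cos (ang N i y')| = |y - y'| / (N : ℝ) ^ 2 := by
  have h3 : (3 : ℝ) ≤ N := by exact_mod_cast hN
  rw [cos_ang hN i hy, cos_ang hN i hy', ← mul_sub, abs_mul, abs_pow, abs_neg, abs_one, one_pow, one_mul,
    ← sub_div, abs_div, abs_of_pos (by positivity : (0 : ℝ) < (N : ℝ) ^ 2)]

theorem th_mem {N : ℕ} (hN : 3 ≤ N) {i : ℕ} (hi : i < N) {y : ℝ} (hy : |y| ≤ 1) :
    π / (3 * N) ≤ th N i y ∧ th N i y ≤ π - π / (3 * N) := by
  have h3 : (3 : ℝ) ≤ N := by exact_mod_cast hN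
  have h := ang_mem hN i hy
  have hpi := pi_pos
  have hi' : (i : ℝ) + 1 ≤ N := by exact_mod_cast hi
  have hi0 : (0 : ℝ) ≤ i := Nat.cast_nonneg i
  have e1 : π / (3 * N) = (π / 3) / N := by field_simp
  have e2 : π - π / (3 * N) = (N * π - π / 3) / N := by field_simp
  unfold th
  rw [e2, e1]
  constructor
  · exact div_le_div_of_nonneg_right (by nlinarith) (by linarith)
  · exact div_le_div_of_nonneg_right (by nlinarith) (by linarith)

theorem gg_abs (N i : ℕ) (y : ℝ) : |gg N i y| ≤ 1 := abs_cos_le_one _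

theorem gg_cont (N i : ℕ) : Continuous (gg N i) := by
  unfold gg th ang
  have := continuous_arccos
  fun_prop

theorem th_sub {N : ℕ} (hN : 3 ≤ N) (i : ℕ) (y y' : ℝ) :
    |th N i y - th N i y'| = |ang N i y - ang N i y'| / N := by
  have h3 : (3 : ℝ) ≤ N := by exact_mod_cast hN
  unfold th
  rw [← sub_div, abs_div, abs_of_pos (by linarith : (0 : ℝ) < N)]
  congr 2; ring

theorem gg_up {N : ℕ} (hN : 3 ≤ N) (i : ℕ) {y y' : ℝ} (hy : |y| ≤ 1) (hy' : |y'| ≤ 1) :
    |gg N i y - gg N i y'| ≤ 3 / (N : ℝ) ^ 3 * |y - y'| := by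
  have h3 : (3 : ℝ) ≤ N := by exact_mod_cast hN
  have hpi := pi_pos
  have a1 := ang_mem hN i hy
  have a2 := ang_mem hN i hy'
  have h1 := cos_low (α := ang N i y) (β := ang N i y') (ε := π / 3) (by positivity) (by linarith)
    (by linarith [a1.1, a2.1]) (by linarith [a1.2, a2.2])
    (abs_le.mpr ⟨by linarith [a1.1, a2.2], by linarith [a1.2, a2.1]⟩)
  rw [cos_ang_sub hN i hy hy'] at h1
  have h2 : |ang N i y - ang N i y'| / 3 ≤ 4 * (π / 3) * |ang N i y - ang N i y'| / π ^ 2 := by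
    rw [div_le_div_iff₀ (by norm_num) (by positivity)]
    have := abs_nonneg (ang N i y - ang N i y')
    nlinarith [mul_nonneg (mul_nonneg this hpi.le) (sub_nonneg.mpr pi_le_four)]
  have h4 := abs_cos_sub_cos_le (th N i y) (th N i y')
  rw [th_sub hN] at h4
  refine h4.trans ?_
  rw [div_le_iff₀ (by linarith)]
  have : 3 / (N : ℝ) ^ 3 * |y - y'| * N = 3 * (|y - y'| / (N : ℝ) ^ 2) := by field_simp
  rw [this]; linarith

theorem gg_lo {N : ℕ} (hN : 3 ≤ N) {i : ℕ} (hi : i < N) {y y' : ℝ} (hy : |y| ≤ 1) (hy' : |y'| ≤ 1) :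
    |y - y'| / (N : ℝ) ^ 5 ≤ |gg N i y - gg N i y'| := by
  have h3 : (3 : ℝ) ≤ N := by exact_mod_cast hN
  have hpi := pi_pos
  have a1 := th_mem hN hi hy
  have a2 := th_mem hN hi hy'
  have hε : 0 < π / (3 * N) := by positivity
  have hε2 : π / (3 * N) ≤ π / 2 := div_le_div_of_nonneg_left hpi.le (by norm_num) (by linarith)
  have h1 := cos_low (α := th N i y) (β := th N i y') (ε := π / (3 * N)) hε.le hε2
    (by linarith [a1.1, a2.1]) (by linarith [a1.2, a2.2])
    (abs_le.mpr ⟨by linarith [a1.1, a2.2], by linarith [a1.2, a2.1]⟩)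
  refine le_trans ?_ h1
  have h4 := abs_cos_sub_cos_le (ang N i y) (ang N i y')
  rw [cos_ang_sub hN i hy hy'] at h4
  rw [th_sub hN]
  set δ := |ang N i y - ang N i y'|
  have hδ : 0 ≤ δ := abs_nonneg _
  calc |y - y'| / (N : ℝ) ^ 5 = (|y - y'| / (N : ℝ) ^ 2) / (N : ℝ) ^ 3 := by field_simp
    _ ≤ δ / (N : ℝ) ^ 3 := div_le_div_of_nonneg_right h4 (by positivity)
    _ ≤ 4 * (π / (3 * N)) * (δ / N) / π ^ 2 := by
      have e : 4 * (π / (3 * N)) * (δ / N) / π ^ 2 = δ / ((3 * π / 4) * (N : ℝ) ^ 2) := by field_simp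
      rw [e]
      refine div_le_div_of_nonneg_left hδ (by positivity) ?_
      have : 3 * π / 4 ≤ N := by linarith [pi_le_four]
      nlinarith [mul_le_mul_of_nonneg_right this (sq_nonneg (N : ℝ))]

theorem gg_sep {N : ℕ} (hN : 3 ≤ N) {i j : ℕ} (hi : i < N) (hj : j < N) (hij : i ≠ j) {y y' : ℝ}
    (hy : |y| ≤ 1) (hy' : |y'| ≤ 1) :
    ((i : ℝ) - j) ^ 2 / (2 * (N : ℝ) ^ 2) ≤ |gg N i y - gg N j y'| := by
  have h3 : (3 : ℝ) ≤ N := by exact_mod_cast hN
  have hpi := pi_pos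
  have a1 := th_mem hN hi hy
  have a2 := th_mem hN hj hy'
  have b1 := ang_mem hN i hy
  have b2 := ang_mem hN j hy'
  have hε : 0 < π / (3 * N) := by positivity
  set d := th N i y - th N j y' with hd
  have hd1 : |d| ≤ π := abs_le.mpr ⟨by linarith [a1.1, a2.2], by linarith [a1.2, a2.1]⟩
  have h1 := cos_low (α := th N i y) (β := th N j y') (ε := |d| / 2) (by positivity) (by linarith)
    (by rcases abs_cases d with h | h <;> linarith [a1.1, a2.1, h.1])
    (by rcases abs_cases d with h | h <;> linarith [a1.2, a2.2, h.1]) hd1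
  refine le_trans ?_ h1
  have h2 : (1 : ℝ) ≤ |(i : ℝ) - j| := by
    have : (1 : ℤ) ≤ |(i : ℤ) - j| := Int.one_le_abs (sub_ne_zero.mpr (by exact_mod_cast hij))
    exact_mod_cast this
  have h4 : |(i : ℝ) - j| * π / (2 * N) ≤ |d| := by
    have e : d = (((i : ℝ) - j) * π + (ang N i y - ang N j y')) / N := by
      rw [hd]; unfold th; ring
    rw [e, abs_div, abs_of_pos (by linarith : (0 : ℝ) < N), div_le_div_iff₀ (by linarith) (by linarith)]
    have h5 : |((i : ℝ) - j) * π| ≤ |((i : ℝ) - j) * π + (ang N i y - ang N j y')| + |ang N i y - ang N j y'| := by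
      have := abs_sub (((i : ℝ) - j) * π + (ang N i y - ang N j y')) (ang N i y - ang N j y')
      simpa using this
    have h6 : |ang N i y - ang N j y'| ≤ π / 3 :=
      abs_le.mpr ⟨by linarith [b1.1, b2.2], by linarith [b1.2, b2.1]⟩
    rw [abs_mul, abs_of_pos hpi] at h5
    have h7 : |(i : ℝ) - j| * π ≤ 2 * |((i : ℝ) - j) * π + (ang N i y - ang N j y')| := by nlinarith
    nlinarith
  have h8 : (|(i : ℝ) - j| * π / (2 * N)) ^ 2 ≤ |d| ^ 2 := pow_le_pow_left₀ (by positivity) h4 2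
  have e2 : 4 * (|d| / 2) * |d| / π ^ 2 = 2 * |d| ^ 2 / π ^ 2 := by ring
  rw [e2, le_div_iff₀ (by positivity)]
  have e3 : ((i : ℝ) - j) ^ 2 / (2 * (N : ℝ) ^ 2) * π ^ 2 = 2 * (|(i : ℝ) - j| * π / (2 * N)) ^ 2 := by
    rw [div_pow, mul_pow, sq_abs]; field_simp
  rw [e3]; linarith

theorem gg_fac {N : ℕ} (hN : 3 ≤ N) (x : ℝ) {y : ℝ} (hy : |y| ≤ 1) :
    ff N x - y = ((N : ℝ) ^ 2 * 2 ^ (N - 1)) * ∏ i ∈ Finset.range N, (x - gg N i y) := by
  have h3 : (3 : ℝ) ≤ N := by exact_mod_cast hN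
  have hmon : (∏ i ∈ Finset.range N, (Polynomial.X - Polynomial.C (gg N i y))).Monic :=
    Polynomial.monic_prod_X_sub_C _ _
  have hdeg : (∏ i ∈ Finset.range N, (Polynomial.X - Polynomial.C (gg N i y))).degree = (N : WithBot ℕ) := by
    rw [Polynomial.degree_prod]
    simp
  have hT : (Polynomial.Chebyshev.T ℝ N).degree = N := by
    rw [Polynomial.Chebyshev.degree_T]; simp
  have hlt : (Polynomial.C (y / (N : ℝ) ^ 2)).degree < (Polynomial.Chebyshev.T ℝ N).degree := by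
    rw [hT]
    exact lt_of_le_of_lt Polynomial.degree_C_le (by exact_mod_cast (show 0 < N by omega))
  have key : Polynomial.Chebyshev.T ℝ N - Polynomial.C (y / (N : ℝ) ^ 2)
      = Polynomial.C ((2 : ℝ) ^ (N - 1)) * ∏ i ∈ Finset.range N, (Polynomial.X - Polynomial.C (gg N i y)) := by
    refine Polynomial.eq_of_degree_le_of_eval_index_eq (Finset.range N) (v := fun i => gg N i y) ?_ ?_ ?_ ?_ ?_
    · intro i hi j hj hij
      by_contra hne
      have := gg_sep hN (Finset.mem_range.mp hi) (Finset.mem_range.mp hj) hne hy hy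
      simp only at hij
      rw [hij, sub_self, abs_zero] at this
      have h2 : ((i : ℝ) - j) ≠ 0 := sub_ne_zero.mpr (by exact_mod_cast hne)
      have : 0 < ((i : ℝ) - j) ^ 2 / (2 * (N : ℝ) ^ 2) := by positivity
      linarith
    · rw [Polynomial.degree_sub_eq_left_of_degree_lt hlt, hT]; simp
    · rw [Polynomial.degree_sub_eq_left_of_degree_lt hlt, hT, Polynomial.degree_C_mul (by positivity), hdeg]
    · rw [Polynomial.leadingCoeff_sub_of_degree_lt hlt, Polynomial.Chebyshev.leadingCoeff_T,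
        Polynomial.leadingCoeff_mul, hmon.leadingCoeff]
      simp
    · intro i hi
      rw [Polynomial.eval_mul, Polynomial.eval_prod,
        Finset.prod_eq_zero hi (by simp), mul_zero, Polynomial.eval_sub, Polynomial.eval_C, gg,
        Polynomial.Chebyshev.T_real_cos]
      have : ((N : ℤ) : ℝ) * th N i y = ang N i y + i * π := by
        unfold th; push_cast; field_simp
      rw [this, cos_add_nat_mul_pi, cos_ang hN i hy, ← mul_assoc, ← mul_pow]
      simp
  have := congrArg (Polynomial.eval x) key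
  simp only [Polynomial.eval_sub, Polynomial.eval_C, Polynomial.eval_mul, Polynomial.eval_prod,
    Polynomial.eval_X] at this
  rw [mul_assoc, ← this, ff]
  field_simp

end Pool.Agent.H.MP_816d1e_an
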