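import Pool.Agent.H.MP_816d1e_an.B

set_option autoImplicit false
open Set Filter Topology MeasureTheory

namespace Pool.Agent.H.MP_816d1e_an

def D : ℕ → ℕ
  | 0 => 1
  | n + 1 => D n * (16 * D n ^ 6)

def NN (n : ℕ) : ℕ := 16 * D n ^ 6

theorem D_succ (n : ℕ) : D (n + 1) = D n * NN n := rfl

theorem D_pos (n : ℕ) : 0 < D n := by
  induction n with
  | zero => decide
  | succ n ih => rw [D_succ, NN]; positivity

theorem NN_ge (n : ℕ) : 16 ≤ NN n := by
  have := Nat.one_le_pow 6 _ (D_pos n)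
  unfold NN; omega

theorem NN3 (n : ℕ) : 3 ≤ NN n := by have := NN_ge n; omega

theorem D_ge (n : ℕ) : 2 ^ n ≤ D n := by
  induction n with
  | zero => decide
  | succ n ih =>
    rw [D_succ, pow_succ]
    exact Nat.mul_le_mul ih (by have := NN_ge n; omega)

theorem D1 (n : ℕ) : (1 : ℝ) ≤ D n := by exact_mod_cast D_pos n

theorem N16 (n : ℕ) : (16 : ℝ) ≤ NN n := by exact_mod_cast NN_ge n

theorem NN_cast (n : ℕ) : (NN n : ℝ) = 16 * (D n : ℝ) ^ 6 := by simp [NN]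

theorem D_cast (n : ℕ) : (D (n + 1) : ℝ) = D n * NN n := by simp [D_succ]

theorem D_tendsto : Tendsto (fun n => (D n : ℝ)) atTop atTop := by
  refine tendsto_atTop_mono (fun n => ?_) tendsto_natCast_atTop_atTop
  exact_mod_cast (Nat.lt_two_pow_self.le.trans (D_ge n))

theorem Dinv_tendsto : Tendsto (fun n => (D n : ℝ)⁻¹) atTop (𝓝 0) := D_tendsto.inv_tendsto_atTop

noncomputable def G : ℕ → ℕ → ℝ → ℝ
  | 0, _, y => y / 2
  | n + 1, m, y => G n (m / NN n) (gg (NN n) (m % NN n) y)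

noncomputable def F : ℕ → ℝ → ℝ
  | 0, x => 2 * x
  | n + 1, x => ff (NN n) (F n x)

noncomputable def lam : ℕ → ℝ
  | 0 => 2
  | n + 1 => ((NN n : ℝ) ^ 2 * 2 ^ (NN n - 1)) * lam n ^ (NN n)

theorem G_abs (n : ℕ) : ∀ (m : ℕ) (y : ℝ), |y| ≤ 1 → |G n m y| ≤ 1 / 2 := by
  induction n with
  | zero => intro m y hy; simp only [G, abs_div, abs_two]; linarith
  | succ n ih => intro m y _; exact ih _ _ (gg_abs _ _ _)

theorem G_cont (n : ℕ) : ∀ m : ℕ, Continuous (G n m) := by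
  induction n with
  | zero => intro m; exact continuous_id.div_const 2
  | succ n ih => intro m; exact (ih _).comp (gg_cont _ _)

theorem mod_lt' (m n : ℕ) : m % NN n < NN n := Nat.mod_lt _ (by have := NN_ge n; omega)

theorem G_lo (n : ℕ) : ∀ (m : ℕ) (y y' : ℝ), |y| ≤ 1 → |y'| ≤ 1 →
    |y - y'| / (2 * (D n : ℝ) ^ 5) ≤ |G n m y - G n m y'| := by
  induction n with
  | zero => intro m y y' _ _; simp only [G, D]; rw [← sub_div, abs_div, abs_two]; simp
  | succ n ih =>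
    intro m y y' hy hy'
    refine le_trans ?_ (ih _ _ _ (gg_abs _ _ _) (gg_abs _ _ _))
    have h1 := gg_lo (NN3 n) (mod_lt' m n) hy hy'
    have := D1 n
    have := N16 n
    calc |y - y'| / (2 * (D (n + 1) : ℝ) ^ 5) = (|y - y'| / (NN n : ℝ) ^ 5) / (2 * (D n : ℝ) ^ 5) := by
          rw [D_cast]; field_simp
      _ ≤ _ := div_le_div_of_nonneg_right h1 (by positivity)

theorem three_le (n : ℕ) : 3 / (NN n : ℝ) ^ 3 ≤ 1 := by
  have := N16 n
  rw [div_le_one (by positivity)]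
  nlinarith [pow_le_pow_left₀ (by norm_num : (0 : ℝ) ≤ 16) this 3]

theorem G_up1 (n : ℕ) : ∀ (m : ℕ) (y y' : ℝ), |y| ≤ 1 → |y'| ≤ 1 →
    |G n m y - G n m y'| ≤ |y - y'| / 2 := by
  induction n with
  | zero => intro m y y' _ _; simp only [G]; rw [← sub_div, abs_div, abs_two]
  | succ n ih =>
    intro m y y' hy hy'
    refine (ih _ _ _ (gg_abs _ _ _) (gg_abs _ _ _)).trans ?_
    have h1 := gg_up (NN3 n) (m % NN n) hy hy'
    have h2 := mul_le_mul_of_nonneg_right (three_le n) (abs_nonneg (y - y'))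
    linarith

noncomputable def dd (n : ℕ) : ℝ := 3 / (NN n : ℝ) ^ 3

noncomputable def gam : ℕ → ℝ
  | 0 => 1
  | n + 1 => 1 / (4 * (D n : ℝ) ^ 5 * (NN n : ℝ) ^ 2)

theorem G_up (n m : ℕ) {y y' : ℝ} (hy : |y| ≤ 1) (hy' : |y'| ≤ 1) :
    |G (n + 1) m y - G (n + 1) m y'| ≤ dd n := by
  refine (G_up1 n _ _ _ (gg_abs _ _ _) (gg_abs _ _ _)).trans ?_
  have h1 := gg_up (NN3 n) (m % NN n) hy hy'
  have h2 : |y - y'| ≤ 2 := (abs_sub y y').trans (by linarith)
  have h3 : 0 ≤ 3 / (NN n : ℝ) ^ 3 := by positivity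
  unfold dd
  nlinarith

theorem gam_pos (n : ℕ) : 0 < gam n := by
  cases n with
  | zero => exact one_pos
  | succ n => have := D1 n; have := N16 n; unfold gam; positivity

theorem gam_anti (n : ℕ) : gam (n + 1) ≤ gam n := by
  cases n with
  | zero =>
    have h1 := D1 0
    have h2 := N16 0
    simp only [gam]
    rw [div_le_one (by positivity)]
    have h3 : (1 : ℝ) ≤ (D 0 : ℝ) ^ 5 := one_le_pow₀ h1
    nlinarith
  | succ n =>
    have h1 := D1 n
    have h2 := N16 n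
    have h3 : (D n : ℝ) ≤ D (n + 1) := by rw [D_cast]; nlinarith
    have h4 : (NN n : ℝ) ≤ NN (n + 1) := by
      rw [NN_cast, NN_cast]; gcongr
    simp only [gam]
    gcongr

theorem dd_le (n : ℕ) : dd n ≤ gam (n + 1) * (3 / 4 * (D n : ℝ)⁻¹) := by
  have h1 := D1 n
  simp only [dd, gam, NN_cast]
  apply le_of_eq
  field_simp
  ring

theorem dd_lt (n : ℕ) : dd n < gam (n + 1) := by
  have h1 : (D n : ℝ)⁻¹ ≤ 1 := inv_le_one_of_one_le₀ (D1 n)
  have h2 := gam_pos (n + 1)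
  have h3 : (0 : ℝ) ≤ (D n : ℝ)⁻¹ := by positivity
  nlinarith [dd_le n]

theorem gam_le_one (n : ℕ) : gam n ≤ 1 := by
  induction n with
  | zero => exact le_rfl
  | succ n ih => exact (gam_anti n).trans ih

theorem dd_pos (n : ℕ) : 0 < dd n := by have := N16 n; unfold dd; positivity

theorem dd_tendsto : Tendsto dd atTop (𝓝 0) := by
  refine squeeze_zero (fun n => (dd_pos n).le) (fun n => ?_) Dinv_tendsto
  have h3 : (0 : ℝ) ≤ (D n : ℝ)⁻¹ := by positivity
  nlinarith [dd_le n, gam_le_one (n + 1), gam_pos (n + 1)]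

theorem G_split (n : ℕ) {a b : ℕ} (h : a / NN n = b / NN n) (hab : a ≠ b) {y y' : ℝ}
    (hy : |y| ≤ 1) (hy' : |y'| ≤ 1) :
    ((a : ℝ) - b) ^ 2 * gam (n + 1) ≤ |G (n + 1) a y - G (n + 1) b y'| := by
  have ha := Nat.div_add_mod a (NN n)
  have hb := Nat.div_add_mod b (NN n)
  have hne : a % NN n ≠ b % NN n := fun hh => hab (by rw [← ha, ← hb, h, hh])
  have h1 := gg_sep (NN3 n) (mod_lt' a n) (mod_lt' b n) hne hy hy'
  have h2 := G_lo n (b / NN n) _ _ (gg_abs (NN n) (a % NN n) y) (gg_abs (NN n) (b % NN n) y')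
  have e : ((a % NN n : ℕ) : ℝ) - ((b % NN n : ℕ) : ℝ) = (a : ℝ) - b := by
    have ha' : (a : ℝ) = NN n * (b / NN n : ℕ) + (a % NN n : ℕ) := by rw [← h]; exact_mod_cast ha.symm
    have hb' : (b : ℝ) = NN n * (b / NN n : ℕ) + (b % NN n : ℕ) := by exact_mod_cast hb.symm
    linarith
  rw [e] at h1
  simp only [G, h]
  refine le_trans ?_ h2
  have := D1 n
  have := N16 n
  calc ((a : ℝ) - b) ^ 2 * gam (n + 1)
      = (((a : ℝ) - b) ^ 2 / (2 * (NN n : ℝ) ^ 2)) / (2 * (D n : ℝ) ^ 5) := by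
        simp only [gam]; field_simp; ring
    _ ≤ _ := div_le_div_of_nonneg_right h1 (by positivity)

theorem one_le_sq_sub {a b : ℕ} (hab : a ≠ b) : (1 : ℝ) ≤ |(a : ℝ) - b| := by
  have : (1 : ℤ) ≤ |(a : ℤ) - b| := Int.one_le_abs (sub_ne_zero.mpr (by exact_mod_cast hab))
  exact_mod_cast this

theorem G_gap (n : ℕ) : ∀ a b : ℕ, a < D n → b < D n → a ≠ b → ∀ y y' : ℝ, |y| ≤ 1 → |y'| ≤ 1 →
    gam n ≤ |G n a y - G n b y'| := by
  induction n with
  | zero => intro a b ha hb hab; simp only [D] at ha hb; omega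
  | succ n ih =>
    intro a b ha hb hab y y' hy hy'
    by_cases h : a / NN n = b / NN n
    · refine le_trans ?_ (G_split n h hab hy hy')
      have h1 := one_le_sq_sub hab
      have h2 : (1 : ℝ) ≤ ((a : ℝ) - b) ^ 2 := by rw [← sq_abs]; nlinarith
      nlinarith [gam_pos (n + 1)]
    · have hN : 0 < NN n := by have := NN_ge n; omega
      rw [D_succ] at ha hb
      exact (gam_anti n).trans (ih _ _ ((Nat.div_lt_iff_lt_mul hN).mpr ha)
        ((Nat.div_lt_iff_lt_mul hN).mpr hb) h _ _ (gg_abs _ _ _) (gg_abs _ _ _))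

theorem prod_split (A N : ℕ) (hN : 0 < N) (φ : ℕ → ℕ → ℝ) :
    ∏ m ∈ Finset.range (A * N), φ (m / N) (m % N)
      = ∏ i ∈ Finset.range N, ∏ a ∈ Finset.range A, φ a i := by
  rw [Finset.prod_comm, ← Finset.prod_product']
  refine Finset.prod_nbij' (fun m => (m / N, m % N)) (fun p => p.1 * N + p.2) ?_ ?_ ?_ ?_ ?_
  · intro m hm
    simp only [Finset.mem_product, Finset.mem_range] at hm ⊢
    exact ⟨(Nat.div_lt_iff_lt_mul hN).mpr hm, Nat.mod_lt _ hN⟩
  · intro p hp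
    simp only [Finset.mem_product, Finset.mem_range] at hp ⊢
    nlinarith [hp.1, hp.2, Nat.mul_le_mul_right N (Nat.succ_le_of_lt hp.1)]
  · intro m _
    exact Nat.div_add_mod' m N
  · intro p hp
    simp only [Finset.mem_product, Finset.mem_range] at hp
    ext
    · simp only
      rw [add_comm, Nat.add_mul_div_right _ _ hN, Nat.div_eq_of_lt hp.2, zero_add]
    · simp only
      rw [add_comm, Nat.add_mul_mod_self_right, Nat.mod_eq_of_lt hp.2]
  · intro m _
    rfl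

theorem F_fac (n : ℕ) (x : ℝ) : ∀ y : ℝ, |y| ≤ 1 →
    F n x - y = lam n * ∏ m ∈ Finset.range (D n), (x - G n m y) := by
  induction n with
  | zero => intro y _; simp [F, lam, D, G]; ring
  | succ n ih =>
    intro y hy
    have hN : 0 < NN n := by have := NN_ge n; omega
    have e := prod_split (D n) (NN n) hN (fun a i => x - G n a (gg (NN n) i y))
    simp only [F, lam, G, D_succ]
    rw [e, gg_fac (NN3 n) _ hy, Finset.prod_congr rfl (fun i _ => ih _ (gg_abs (NN n) i y)),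
      Finset.prod_mul_distrib, Finset.prod_const, Finset.card_range]
    ring

theorem F_G (n : ℕ) {m : ℕ} (hm : m < D n) {z : ℝ} (hz : |z| ≤ 1) : F n (G n m z) = z := by
  have := F_fac n (G n m z) z hz
  rw [Finset.prod_eq_zero (Finset.mem_range.mpr hm) (sub_self _), mul_zero] at this
  linarith

noncomputable def idx (n : ℕ) (t : ℝ) : ℕ := ⌊(D n : ℝ) * t⌋₊

theorem idx_div (n : ℕ) (t : ℝ) : idx (n + 1) t / NN n = idx n t := by
  unfold idx
  rw [← Nat.floor_div_natCast, D_cast]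
  have := N16 n
  congr 1
  field_simp

theorem idx_lt (n : ℕ) {t : ℝ} (ht : t ∈ Ico (0 : ℝ) 1) : idx n t < D n := by
  unfold idx
  have := D1 n
  rw [Nat.floor_lt (by nlinarith [ht.1])]
  nlinarith [ht.2]

theorem idx_meas (n : ℕ) : Measurable (idx n) :=
  Nat.measurable_floor.comp (measurable_const.mul measurable_id)

def C (n m : ℕ) : Set ℝ := G n m '' Icc (-1) 1

theorem mem_C {n m : ℕ} {x : ℝ} : x ∈ C n m ↔ ∃ z, |z| ≤ 1 ∧ G n m z = x := by
  simp only [C, mem_image, mem_Icc, abs_le]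

theorem C_compact (n m : ℕ) : IsCompact (C n m) := isCompact_Icc.image (G_cont n m)

theorem C_sub (n m : ℕ) : C (n + 1) m ⊆ C n (m / NN n) := by
  intro x hx
  obtain ⟨z, _, rfl⟩ := mem_C.mp hx
  exact mem_C.mpr ⟨_, gg_abs _ _ _, rfl⟩

theorem C_diam {n m : ℕ} {x y : ℝ} (hx : x ∈ C (n + 1) m) (hy : y ∈ C (n + 1) m) : |x - y| ≤ dd n := by
  obtain ⟨z, hz, rfl⟩ := mem_C.mp hx
  obtain ⟨z', hz', rfl⟩ := mem_C.mp hy
  exact G_up n m hz hz'

theorem C_gap {n a b : ℕ} (ha : a < D n) (hb : b < D n) (hab : a ≠ b) {x y : ℝ} (hx : x ∈ C n a)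
    (hy : y ∈ C n b) : gam n ≤ |x - y| := by
  obtain ⟨z, hz, rfl⟩ := mem_C.mp hx
  obtain ⟨z', hz', rfl⟩ := mem_C.mp hy
  exact G_gap n a b ha hb hab _ _ hz hz'

theorem xs_mem (t : ℝ) {n k : ℕ} (h : n ≤ k) : G k (idx k t) 0 ∈ C n (idx n t) := by
  have : C k (idx k t) ⊆ C n (idx n t) := by
    induction k, h using Nat.le_induction with
    | base => exact subset_rfl
    | succ k _ ih => exact ((C_sub k _).trans (by rw [idx_div])).trans ih
  exact this (mem_C.mpr ⟨0, by simp, rfl⟩)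

theorem xs_cauchy (t : ℝ) : CauchySeq (fun k => G k (idx k t) 0) := by
  rw [Metric.cauchySeq_iff]
  intro ε hε
  obtain ⟨n, hn⟩ := (dd_tendsto.eventually (gt_mem_nhds hε)).exists
  refine ⟨n + 1, fun a ha b hb => ?_⟩
  rw [Real.dist_eq]
  exact (C_diam (xs_mem t ha) (xs_mem t hb)).trans_lt hn

noncomputable def X (t : ℝ) : ℝ := limUnder atTop (fun k => G k (idx k t) 0)

theorem X_tendsto (t : ℝ) : Tendsto (fun k => G k (idx k t) 0) atTop (𝓝 (X t)) :=
  (xs_cauchy t).tendsto_limUnder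

theorem X_meas : Measurable X :=
  measurable_of_tendsto_metrizable (f := fun k t => G k (idx k t) 0)
    (fun k => (measurable_of_countable (fun m => G k m 0)).comp (idx_meas k))
    (tendsto_pi_nhds.mpr X_tendsto)

theorem X_mem (n : ℕ) (t : ℝ) : X t ∈ C n (idx n t) :=
  (C_compact _ _).isClosed.mem_of_tendsto (X_tendsto t)
    (eventually_atTop.mpr ⟨n, fun _ hk => xs_mem t hk⟩)

theorem floor_close {u v : ℝ} (hu : 0 ≤ u) (hv : 0 ≤ v) :
    |u - v| ≤ |(⌊u⌋₊ : ℝ) - ⌊v⌋₊| + 1 := by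
  have h1 := Nat.floor_le hu
  have h2 := Nat.floor_le hv
  have h3 := Nat.lt_floor_add_one u
  have h4 := Nat.lt_floor_add_one v
  rw [abs_le]
  constructor
  · linarith [neg_abs_le ((⌊u⌋₊ : ℝ) - ⌊v⌋₊)]
  · linarith [le_abs_self ((⌊u⌋₊ : ℝ) - ⌊v⌋₊)]

theorem idx_close (n : ℕ) {s t : ℝ} (hs : 0 ≤ s) (ht : 0 ≤ t) :
    D n * |s - t| ≤ |(idx n s : ℝ) - idx n t| + 1 := by
  have h0 : (0 : ℝ) ≤ D n := Nat.cast_nonneg _
  have := floor_close (mul_nonneg h0 hs) (mul_nonneg h0 ht)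
  rwa [← mul_sub, abs_mul, abs_of_nonneg h0] at this

theorem X_anti {s t : ℝ} (hs : s ∈ Ico (0 : ℝ) 1) (ht : t ∈ Ico (0 : ℝ) 1) :
    |s - t| ^ 5 ≤ 16 * |X s - X t| := by
  classical
  by_cases hst : s = t
  · subst hst; simp
  have hpos : 0 < |s - t| := abs_pos.mpr (sub_ne_zero.mpr hst)
  have hex : ∃ n, idx n s ≠ idx n t := by
    by_contra hcon
    push Not at hcon
    obtain ⟨n, hn⟩ := (D_tendsto.eventually (eventually_gt_atTop |s - t|⁻¹)).exists
    have h1 := idx_close n hs.1 ht.1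
    rw [hcon n, sub_self, abs_zero, zero_add] at h1
    rw [inv_lt_iff_one_lt_mul₀ hpos] at hn
    linarith
  have h0 : Nat.find hex ≠ 0 := by
    intro h
    have h1 := Nat.find_spec hex
    rw [h] at h1
    have h2 := idx_lt 0 hs
    have h3 := idx_lt 0 ht
    simp only [D] at h2 h3
    omega
  obtain ⟨n, hn⟩ := Nat.exists_eq_succ_of_ne_zero h0
  have h1 := Nat.find_spec hex
  have h2 := Nat.find_min hex (show n < Nat.find hex by omega)
  rw [hn] at h1
  push Not at h2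
  obtain ⟨z, hz, hz'⟩ := mem_C.mp (X_mem (n + 1) s)
  obtain ⟨w, hw, hw'⟩ := mem_C.mp (X_mem (n + 1) t)
  have h3 := G_split n (by rw [idx_div, idx_div, h2]) h1 hz hw
  rw [hz', hw'] at h3
  have h4 := idx_close n hs.1 ht.1
  rw [h2, sub_self, abs_zero, zero_add] at h4
  have h5 := idx_close (n + 1) hs.1 ht.1
  have h6 := one_le_sq_sub h1
  have hD := D1 n
  have hN := N16 n
  rw [D_cast] at h5
  set e := |(idx (n + 1) s : ℝ) - idx (n + 1) t| with he
  have h7 : (D n * NN n * |s - t|) ^ 2 ≤ (2 * e) ^ 2 := pow_le_pow_left₀ (by positivity) (by linarith) 2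
  have h8 : (D n * |s - t|) ^ 3 ≤ 1 := pow_le_one₀ (by positivity) h4
  rw [← sq_abs, ← he] at h3
  simp only [gam] at h3
  rw [mul_one_div, div_le_iff₀ (by positivity)] at h3
  have h9 : |s - t| ^ 5 * ((D n : ℝ) ^ 5 * (NN n : ℝ) ^ 2)
      = (D n * NN n * |s - t|) ^ 2 * (D n * |s - t|) ^ 3 := by ring
  have h10 : (D n * NN n * |s - t|) ^ 2 * (D n * |s - t|) ^ 3 ≤ (2 * e) ^ 2 * 1 :=
    mul_le_mul h7 h8 (by positivity) (by positivity)
  have h11 : (0 : ℝ) < (D n : ℝ) ^ 5 * (NN n : ℝ) ^ 2 := by positivity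
  refine le_of_mul_le_mul_right ?_ h11
  nlinarith

def K : Set ℝ := ⋂ n, ⋃ m ∈ Finset.range (D n), C n m

theorem mem_K {x : ℝ} : x ∈ K ↔ ∀ n, ∃ m, m < D n ∧ x ∈ C n m := by
  simp [K]

theorem K_compact : IsCompact K := by
  have h : ∀ n, IsCompact (⋃ m ∈ Finset.range (D n), C n m) := fun n =>
    (Finset.range (D n)).isCompact_biUnion (fun m _ => C_compact n m)
  exact (h 0).of_isClosed_subset (isClosed_iInter (fun n => (h n).isClosed)) (iInter_subset _ 0)

theorem X_mem_K {t : ℝ} (ht : t ∈ Ico (0 : ℝ) 1) : X t ∈ K :=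
  mem_K.mpr (fun n => ⟨_, idx_lt n ht, X_mem n t⟩)

theorem idx_eq_iff (n m : ℕ) {t : ℝ} (ht : 0 ≤ t) :
    idx n t = m ↔ t ∈ Ico ((m : ℝ) / D n) ((m + 1) / D n) := by
  have := D1 n
  unfold idx
  rw [Nat.floor_eq_iff (by positivity), mem_Ico, div_le_iff₀ (by linarith), lt_div_iff₀ (by linarith),
    mul_comm t]

theorem cell_int (n : ℕ) (Φ : ℕ → ENNReal) :
    ∫⁻ t in Ico (0 : ℝ) 1, Φ (idx n t) = ∑ m ∈ Finset.range (D n), Φ m * ENNReal.ofReal (D n : ℝ)⁻¹ := by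
  have hD := D1 n
  have e : ∀ t ∈ Ico (0 : ℝ) 1, Φ (idx n t)
      = ∑ m ∈ Finset.range (D n), (Ico ((m : ℝ) / D n) ((m + 1) / D n)).indicator (fun _ => Φ m) t := by
    intro t ht
    rw [Finset.sum_eq_single (idx n t)]
    · rw [Set.indicator_of_mem ((idx_eq_iff n _ ht.1).mp rfl)]
    · intro m _ hm
      exact Set.indicator_of_notMem (fun h => hm ((idx_eq_iff n m ht.1).mpr h).symm) _
    · intro h; exact absurd (Finset.mem_range.mpr (idx_lt n ht)) h
  rw [setLIntegral_congr_fun measurableSet_Ico e, lintegral_finsetSum]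
  · refine Finset.sum_congr rfl (fun m hm => ?_)
    have hm' : (m : ℝ) + 1 ≤ D n := by exact_mod_cast Finset.mem_range.mp hm
    have hsub : Ico ((m : ℝ) / D n) ((m + 1) / D n) ⊆ Ico 0 1 :=
      Ico_subset_Ico (by positivity) ((div_le_one (by linarith)).mpr hm')
    rw [lintegral_indicator_const measurableSet_Ico, Measure.restrict_apply measurableSet_Ico,
      inter_eq_self_of_subset_left hsub, Real.volume_Ico]
    congr 2
    field_simp
    ring
  · intro m _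
    exact measurable_const.indicator measurableSet_Ico

end Pool.Agent.H.MP_816d1e_an
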