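import Pool.Agent.H.MP_816d1e_an.A
import Pool.Agent.H.MP_816d1e_an.C

set_option autoImplicit false
open Set Filter Topology MeasureTheory

namespace Pool.Agent.H.MP_816d1e_an

theorem lam_ge (n : ℕ) : 1 ≤ lam n := by
  induction n with
  | zero => simp [lam]
  | succ n ih =>
    have h := N16 n
    have h1 : (1 : ℝ) ≤ (NN n : ℝ) ^ 2 := one_le_pow₀ (by linarith)
    have h2 : (1 : ℝ) ≤ 2 ^ (NN n - 1) := one_le_pow₀ (by norm_num)
    exact one_le_mul_of_one_le_of_one_le (one_le_mul_of_one_le_of_one_le h1 h2) (one_le_pow₀ ih)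

noncomputable def cc (n : ℕ) : ℝ := Real.log (lam n) / D n

theorem cc_step (n : ℕ) : cc n ≤ cc (n + 1) ∧ cc (n + 1) ≤ cc n + 3 * (1 / 2) ^ n := by
  have h := N16 n
  have hD := D1 n
  have hl := lam_ge n
  have h1 : (1 : ℝ) ≤ (NN n : ℝ) ^ 2 := one_le_pow₀ (by linarith)
  have h2 : (1 : ℝ) ≤ 2 ^ (NN n - 1) := one_le_pow₀ (by norm_num)
  have e : cc (n + 1) = cc n + Real.log ((NN n : ℝ) ^ 2 * 2 ^ (NN n - 1)) / (D n * NN n) := by
    simp only [cc, lam]
    rw [Real.log_mul (by positivity) (by positivity), Real.log_pow (lam n), D_cast]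
    field_simp
    ring
  have h3 : 0 ≤ Real.log ((NN n : ℝ) ^ 2 * 2 ^ (NN n - 1)) :=
    Real.log_nonneg (one_le_mul_of_one_le_of_one_le h1 h2)
  have h4 : Real.log ((NN n : ℝ) ^ 2 * 2 ^ (NN n - 1)) ≤ 3 * NN n := by
    rw [Real.log_mul (by positivity) (by positivity), Real.log_pow, Real.log_pow]
    have a1 := Real.log_le_sub_one_of_pos (show (0 : ℝ) < NN n by linarith)
    have a2 := Real.log_le_sub_one_of_pos (show (0 : ℝ) < 2 by norm_num)
    have a3 : ((NN n - 1 : ℕ) : ℝ) ≤ NN n := by exact_mod_cast Nat.sub_le _ _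
    have a4 : (0 : ℝ) ≤ ((NN n - 1 : ℕ) : ℝ) := Nat.cast_nonneg _
    push_cast
    nlinarith
  have h5 : (2 : ℝ) ^ n ≤ D n := by exact_mod_cast D_ge n
  rw [e]
  refine ⟨le_add_of_nonneg_right (by positivity), add_le_add_right ?_ _⟩
  rw [div_le_iff₀ (by positivity)]
  have h6 : (1 : ℝ) ≤ (1 / 2) ^ n * D n := by
    calc (1 : ℝ) = (1 / 2) ^ n * 2 ^ n := by rw [← mul_pow]; norm_num
      _ ≤ _ := mul_le_mul_of_nonneg_left h5 (by positivity)
  nlinarith

theorem cc_tendsto : ∃ c, Tendsto cc atTop (𝓝 c) := by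
  have h1 : Monotone cc := monotone_nat_of_le_succ (fun n => (cc_step n).1)
  have h2 : ∀ n, cc n ≤ cc 0 + 6 - 6 * (1 / 2) ^ n := by
    intro n
    induction n with
    | zero => simp
    | succ n ih => have := (cc_step n).2; rw [pow_succ]; linarith
  refine ⟨_, tendsto_atTop_ciSup h1 ⟨cc 0 + 6, ?_⟩⟩
  rintro _ ⟨n, rfl⟩
  have : (0 : ℝ) ≤ (1 / 2) ^ n := by positivity
  linarith [h2 n]

theorem log_close {u v γ d η : ℝ} (hγ : 0 < γ) (hu : γ ≤ u) (hv : γ ≤ v) (h : v - u ≤ d)
    (hd : d ≤ γ * η) (hη : 0 ≤ η) : Real.log v - Real.log u ≤ η := by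
  have hu0 : 0 < u := hγ.trans_le hu
  have hv0 : 0 < v := hγ.trans_le hv
  rw [← Real.log_div hv0.ne' hu0.ne']
  refine (Real.log_le_sub_one_of_pos (div_pos hv0 hu0)).trans ?_
  rw [div_sub_one hu0.ne', div_le_iff₀ hu0]
  nlinarith [mul_le_mul_of_nonneg_right hu hη]

theorem ofReal_sum_le (s : Finset ℕ) (f : ℕ → ℝ) :
    ENNReal.ofReal (∑ m ∈ s, f m) ≤ ∑ m ∈ s, ENNReal.ofReal (f m) := by
  classical
  induction s using Finset.induction_on with
  | empty => simp
  | insert a s ha ih =>
    rw [Finset.sum_insert ha, Finset.sum_insert ha]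
    exact ENNReal.ofReal_add_le.trans (add_le_add_right ih _)

theorem level (R : ℝ) (hR : 1 ≤ R) (n a : ℕ) (ha : a < D (n + 1)) {x : ℝ} (hx : x ∈ C (n + 1) a) :
    ENNReal.ofReal ((1 - (D (n + 1) : ℝ)⁻¹) * (Real.log R - (D n : ℝ)⁻¹) + cc (n + 1)
        - Real.log (2 * (D (n + 1) : ℝ) ^ 5) / D (n + 1))
      ≤ ∫⁻ t in Ico (0 : ℝ) 1, (if idx (n + 1) t = a then 0 else kk R x (X t)) ∧
    ∫⁻ t in Ico (0 : ℝ) 1, (if idx (n + 1) t = a then 0 else kk R x (X t))
      ≤ ENNReal.ofReal (Real.log R + (D n : ℝ)⁻¹ + cc (n + 1)) := by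
  obtain ⟨z, hz, hzx⟩ := mem_C.mp hx
  obtain ⟨y, hy, hzy⟩ : ∃ y : ℝ, |y| ≤ 1 ∧ |z - y| = 1 := by
    have := abs_le.mp hz
    rcases le_total 0 z with h | h
    · exact ⟨z - 1, abs_le.mpr ⟨by linarith, by linarith⟩, by simp⟩
    · exact ⟨z + 1, abs_le.mpr ⟨by linarith, by linarith⟩, by simp⟩
  set P := D (n + 1) with hP
  set η := (D n : ℝ)⁻¹ with hη
  set L := Real.log R with hL
  have hL0 : 0 ≤ L := Real.log_nonneg hR
  have hη0 : 0 ≤ η := by positivity
  have hP1 : (1 : ℝ) ≤ P := D1 _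
  set v : ℕ → ℝ := fun m => |x - G (n + 1) m y| with hv
  have hv1 : ∀ m, v m ≤ 1 := fun m => by
    have h1 := G_abs (n + 1) a z hz
    have h2 := G_abs (n + 1) m y hy
    rw [hzx] at h1
    exact (abs_sub _ _).trans (by linarith)
  have hva : 1 / (2 * (P : ℝ) ^ 5) ≤ v a := by
    have := G_lo (n + 1) a z y hz hy
    rwa [hzy, hzx] at this
  have hvm : ∀ m, m < P → m ≠ a → gam (n + 1) ≤ v m := fun m hm hma =>
    C_gap ha hm hma.symm hx (mem_C.mpr ⟨y, hy, rfl⟩)
  have hvpos : ∀ m ∈ Finset.range P, 0 < v m := by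
    intro m hm
    by_cases h : m = a
    · rw [h]; exact lt_of_lt_of_le (by positivity) hva
    · exact (gam_pos _).trans_le (hvm m (Finset.mem_range.mp hm) h)
  have hlog : Real.log (lam (n + 1)) + ∑ m ∈ Finset.range P, Real.log (v m) = 0 := by
    have h1 := F_fac (n + 1) x y hy
    rw [← hzx, F_G _ ha hz, hzx] at h1
    have h2 := congrArg abs h1
    have hl := lam_ge (n + 1)
    rw [hzy, abs_mul, abs_of_pos (by linarith), Finset.abs_prod] at h2
    rw [← Real.log_prod (fun m hm => (hvpos m hm).ne'), ← Real.log_mul (by linarith)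
      (Finset.prod_pos hvpos).ne', ← h2, Real.log_one]
  have hS : ∑ m ∈ (Finset.range P).erase a, Real.log (v m)
      = -Real.log (lam (n + 1)) - Real.log (v a) := by
    have := Finset.add_sum_erase (Finset.range P) (fun m => Real.log (v m)) (Finset.mem_range.mpr ha)
    linarith
  have hla1 : Real.log (v a) ≤ 0 := Real.log_nonpos (abs_nonneg _) (hv1 a)
  have hla2 : -Real.log (2 * (P : ℝ) ^ 5) ≤ Real.log (v a) := by
    rw [← Real.log_inv, ← one_div]
    exact Real.log_le_log (by positivity) hva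
  have hcard : (((Finset.range P).erase a).card : ℝ) = P - 1 := by
    rw [Finset.card_erase_of_mem (Finset.mem_range.mpr ha), Finset.card_range,
      Nat.cast_sub (show 1 ≤ P from D_pos _), Nat.cast_one]
  have hdη : dd n ≤ gam (n + 1) * η := by
    have := dd_le n
    nlinarith [gam_pos (n + 1)]
  have hpt : ∀ t ∈ Ico (0 : ℝ) 1, idx (n + 1) t ≠ a →
      ENNReal.ofReal (L - Real.log (v (idx (n + 1) t)) - η) ≤ kk R x (X t) ∧
      kk R x (X t) ≤ ENNReal.ofReal (L - Real.log (v (idx (n + 1) t)) + η) := by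
    intro t ht hne
    have h1 := C_gap ha (idx_lt _ ht) hne.symm hx (X_mem (n + 1) t)
    have h2 := hvm _ (idx_lt _ ht) hne
    have h3 := C_diam (X_mem (n + 1) t) (mem_C.mpr ⟨y, hy, rfl⟩)
    have hg := gam_pos (n + 1)
    have hxX : x ≠ X t := fun h => by rw [← h, sub_self, abs_zero] at h1; linarith
    have h4 := abs_abs_sub_abs_le_abs_sub (x - X t) (x - G (n + 1) (idx (n + 1) t) y)
    have e : x - X t - (x - G (n + 1) (idx (n + 1) t) y) = -(X t - G (n + 1) (idx (n + 1) t) y) := by ring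
    rw [e, abs_neg] at h4
    have h5 := abs_le.mp (h4.trans h3)
    have h6 := log_close hg h1 h2 (by simp only [hv]; linarith [h5.1]) hdη hη0
    have h7 := log_close hg h2 h1 (by simp only [hv]; linarith [h5.2]) hdη hη0
    rw [kk, if_neg hxX, Real.dist_eq]
    exact ⟨ENNReal.ofReal_le_ofReal (by linarith), ENNReal.ofReal_le_ofReal (by linarith)⟩
  have hsum : ∀ φ : ℕ → ℝ, ∑ m ∈ Finset.range P,
      (if m = a then 0 else ENNReal.ofReal (φ m)) * ENNReal.ofReal (P : ℝ)⁻¹
      = ∑ m ∈ (Finset.range P).erase a, ENNReal.ofReal (φ m * (P : ℝ)⁻¹) := by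
    intro φ
    rw [← Finset.add_sum_erase _ _ (Finset.mem_range.mpr ha), if_pos rfl, zero_mul, zero_add]
    refine Finset.sum_congr rfl (fun m hm => ?_)
    rw [if_neg (Finset.ne_of_mem_erase hm), ENNReal.ofReal_mul' (by positivity)]
  have hreal : ∀ e : ℝ, ∑ m ∈ (Finset.range P).erase a, (L - Real.log (v m) + e) * (P : ℝ)⁻¹
      = (1 - (P : ℝ)⁻¹) * (L + e) + cc (n + 1) + Real.log (v a) / P := by
    intro e
    rw [← Finset.sum_mul, Finset.sum_add_distrib, Finset.sum_sub_distrib, hS, Finset.sum_const,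
      Finset.sum_const, nsmul_eq_mul, nsmul_eq_mul, hcard, cc, ← hP]
    field_simp
    ring
  constructor
  · calc _ ≤ ENNReal.ofReal (∑ m ∈ (Finset.range P).erase a, (L - Real.log (v m) + -η) * (P : ℝ)⁻¹) := by
          rw [hreal]
          refine ENNReal.ofReal_le_ofReal ?_
          have := div_le_div_of_nonneg_right hla2 (show (0 : ℝ) ≤ P by linarith)
          rw [neg_div] at this
          rw [← sub_eq_add_neg]
          linarith
      _ ≤ ∑ m ∈ (Finset.range P).erase a, ENNReal.ofReal ((L - Real.log (v m) + -η) * (P : ℝ)⁻¹) :=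
          ofReal_sum_le _ _
      _ = ∫⁻ t in Ico (0 : ℝ) 1, (fun m => if m = a then 0 else
            ENNReal.ofReal (L - Real.log (v m) + -η)) (idx (n + 1) t) :=
          ((cell_int (n + 1) _).trans (hsum _)).symm
      _ ≤ _ := by
          refine setLIntegral_mono' measurableSet_Ico (fun t ht => ?_)
          by_cases h : idx (n + 1) t = a
          · simp [h]
          · simp only [if_neg h]
            rw [← sub_eq_add_neg]
            exact (hpt t ht h).1
  · calc _ ≤ ∫⁻ t in Ico (0 : ℝ) 1, (fun m => if m = a then 0 else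
            ENNReal.ofReal (L - Real.log (v m) + η)) (idx (n + 1) t) := by
          refine setLIntegral_mono' measurableSet_Ico (fun t ht => ?_)
          by_cases h : idx (n + 1) t = a
          · simp [h]
          · simp only [if_neg h]
            exact (hpt t ht h).2
      _ = ∑ m ∈ (Finset.range P).erase a, ENNReal.ofReal ((L - Real.log (v m) + η) * (P : ℝ)⁻¹) :=
          (cell_int (n + 1) _).trans (hsum (fun m => L - Real.log (v m) + η))
      _ = ENNReal.ofReal (∑ m ∈ (Finset.range P).erase a, (L - Real.log (v m) + η) * (P : ℝ)⁻¹) := by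
          rw [ENNReal.ofReal_sum_of_nonneg]
          intro m _
          have := Real.log_nonpos (abs_nonneg _) (hv1 m)
          exact mul_nonneg (by linarith) (by positivity)
      _ ≤ _ := by
          rw [hreal]
          refine ENNReal.ofReal_le_ofReal ?_
          have h1 : Real.log (v a) / P ≤ 0 := div_nonpos_of_nonpos_of_nonneg hla1 (by linarith)
          have h2 : 0 ≤ (P : ℝ)⁻¹ * (L + η) := by positivity
          linarith

theorem kk_meas (R x : ℝ) : Measurable (kk R x) := by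
  unfold kk
  refine Measurable.ite (measurableSet_eq_fun measurable_const measurable_id) measurable_const ?_
  exact ENNReal.measurable_ofReal.comp
    (measurable_const.sub (Real.measurable_log.comp (measurable_const.dist measurable_id)))

theorem X_inj {s t : ℝ} (hs : s ∈ Ico (0 : ℝ) 1) (ht : t ∈ Ico (0 : ℝ) 1) (h : X s = X t) : s = t := by
  have := X_anti hs ht
  rw [h, sub_self, abs_zero, mul_zero] at this
  have h2 : |s - t| ^ 5 = 0 := le_antisymm this (by positivity)
  exact sub_eq_zero.mp (abs_eq_zero.mp (pow_eq_zero_iff (by norm_num) |>.mp h2))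

theorem fibre_null (x : ℝ) : ∀ᵐ t ∂(volume.restrict (Ico (0 : ℝ) 1)), X t ≠ x := by
  rw [ae_restrict_iff' measurableSet_Ico, ae_iff]
  refine Set.Subsingleton.measure_zero (fun s hs t ht => ?_) _
  simp only [mem_ofPred_eq, Classical.not_imp, not_not] at hs ht
  exact X_inj hs.1 ht.1 (hs.2.trans ht.2.symm)

theorem potential (R : ℝ) (hR : 1 ≤ R) : ∃ c : ℝ, ∀ x ∈ K,
    ∫⁻ t in Ico (0 : ℝ) 1, kk R x (X t) = ENNReal.ofReal c := by
  obtain ⟨c, hc⟩ := cc_tendsto
  refine ⟨Real.log R + c, fun x hx => ?_⟩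
  choose a ha hxa using mem_K.mp hx
  have hs : Tendsto (fun n : ℕ => n + 1) atTop atTop := tendsto_add_atTop_nat 1
  have hc' := hc.comp hs
  have hD' := Dinv_tendsto.comp hs
  have hlog : Tendsto (fun n => Real.log (2 * (D (n + 1) : ℝ) ^ 5) / D (n + 1)) atTop (𝓝 0) := by
    have h1 := (Real.isLittleO_log_id_atTop.tendsto_div_nhds_zero.comp D_tendsto).comp hs
    have h2 := (hD'.const_mul (Real.log 2)).add (h1.const_mul 5)
    simp only [mul_zero, add_zero] at h2
    refine h2.congr (fun n => ?_)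
    have := D1 (n + 1)
    simp only [Function.comp, id]
    rw [Real.log_mul (by norm_num) (by positivity), Real.log_pow]
    field_simp
    push_cast
    ring
  have hlo : Tendsto (fun n => (1 - (D (n + 1) : ℝ)⁻¹) * (Real.log R - (D n : ℝ)⁻¹) + cc (n + 1)
      - Real.log (2 * (D (n + 1) : ℝ) ^ 5) / D (n + 1)) atTop (𝓝 (Real.log R + c)) := by
    have := (((hD'.const_sub 1).mul (Dinv_tendsto.const_sub (Real.log R))).add hc').sub hlog
    simpa using this
  have hup : Tendsto (fun n => Real.log R + (D n : ℝ)⁻¹ + cc (n + 1)) atTop (𝓝 (Real.log R + c)) := by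
    have := (Dinv_tendsto.const_add (Real.log R)).add hc'
    simpa using this
  apply le_antisymm
  · have hm : ∀ n, Measurable (fun t => if idx (n + 1) t = a (n + 1) then 0 else kk R x (X t)) := fun n =>
      Measurable.ite (measurableSet_eq_fun (idx_meas _) measurable_const) measurable_const
        ((kk_meas R x).comp X_meas)
    calc ∫⁻ t in Ico (0 : ℝ) 1, kk R x (X t)
        = ∫⁻ t in Ico (0 : ℝ) 1,
            liminf (fun n => if idx (n + 1) t = a (n + 1) then 0 else kk R x (X t)) atTop := by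
          refine lintegral_congr_ae ((fibre_null x).mono (fun t ht => ?_))
          refine (Tendsto.liminf_eq (tendsto_const_nhds.congr' ?_)).symm
          have hpos : 0 < |X t - x| := abs_pos.mpr (sub_ne_zero.mpr ht)
          filter_upwards [dd_tendsto.eventually (gt_mem_nhds hpos)] with n hn
          rw [if_neg]
          intro h
          have := C_diam (X_mem (n + 1) t) (h ▸ hxa (n + 1))
          linarith
      _ ≤ liminf (fun n => ∫⁻ t in Ico (0 : ℝ) 1,
            (if idx (n + 1) t = a (n + 1) then 0 else kk R x (X t))) atTop := lintegral_liminf_le hm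
      _ ≤ liminf (fun n => ENNReal.ofReal (Real.log R + (D n : ℝ)⁻¹ + cc (n + 1))) atTop :=
          liminf_le_liminf (Eventually.of_forall (fun n => (level R hR n _ (ha _) (hxa _)).2))
      _ = _ := (ENNReal.tendsto_ofReal hup).liminf_eq
  · refine le_of_tendsto' (ENNReal.tendsto_ofReal hlo) (fun n => ?_)
    refine (level R hR n _ (ha _) (hxa _)).1.trans (lintegral_mono (fun t => ?_))
    split_ifs <;> simp

noncomputable def mu : Measure ℝ := (volume.restrict (Ico (0 : ℝ) 1)).map X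

theorem mu_apply {s : Set ℝ} (hs : MeasurableSet s) : mu s = volume (X ⁻¹' s ∩ Ico 0 1) := by
  rw [mu, Measure.map_apply X_meas hs, Measure.restrict_apply (X_meas hs)]

instance : IsProbabilityMeasure mu := ⟨by rw [mu_apply MeasurableSet.univ]; simp⟩

theorem mu_K : mu Kᶜ = 0 := by
  rw [mu_apply K_compact.isClosed.measurableSet.compl]
  have : X ⁻¹' Kᶜ ∩ Ico 0 1 = ∅ := eq_empty_of_forall_notMem (fun t ht => ht.1 (X_mem_K ht.2))
  rw [this, measure_empty]

instance : NullSingletonClass mu := ⟨fun x => by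
  rw [mu_apply (measurableSet_singleton x)]
  exact Set.Subsingleton.measure_zero (fun s hs t ht => X_inj hs.2 ht.2
    ((mem_singleton_iff.mp hs.1).trans (mem_singleton_iff.mp ht.1).symm)) _⟩

theorem mu_pot (R : ℝ) (hR : 1 ≤ R) : ∃ c : ℝ, ∀ x ∈ K, ∫⁻ y, kk R x y ∂mu = ENNReal.ofReal c := by
  obtain ⟨c, hc⟩ := potential R hR
  exact ⟨c, fun x hx => by rw [mu, lintegral_map (kk_meas R x) X_meas, hc x hx]⟩

theorem mu_small {e r : ℝ} (he : 0 ≤ e) (hr : 16 * r ≤ e ^ 5) (x : ℝ) :
    mu (Icc x (x + r)) ≤ ENNReal.ofReal e := by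
  rw [mu_apply measurableSet_Icc]
  refine (Real.volume_le_diam _).trans (Metric.ediam_le (fun s hs t ht => ?_))
  rw [edist_dist, Real.dist_eq]
  refine ENNReal.ofReal_le_ofReal (le_of_pow_le_pow_left₀ (n := 5) (by norm_num) he ?_)
  have h1 := X_anti hs.2 ht.2
  have h2 : |X s - X t| ≤ r := abs_le.mpr ⟨by linarith [hs.1.1, ht.1.2], by linarith [hs.1.2, ht.1.1]⟩
  linarith

theorem mu_cell (n : ℕ) {r : ℝ} (hr : r ≤ dd n) (x : ℝ) :
    mu (Icc x (x + r)) ≤ ENNReal.ofReal (D (n + 1) : ℝ)⁻¹ := by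
  rw [mu_apply measurableSet_Icc]
  rcases (X ⁻¹' Icc x (x + r) ∩ Ico 0 1).eq_empty_or_nonempty with h | ⟨s, hs⟩
  · rw [h]; simp
  · have hsub : X ⁻¹' Icc x (x + r) ∩ Ico 0 1 ⊆
        Ico ((idx (n + 1) s : ℝ) / D (n + 1)) ((idx (n + 1) s + 1) / D (n + 1)) := by
      intro t ht
      rw [← idx_eq_iff _ _ ht.2.1]
      by_contra hne
      have h1 := C_gap (idx_lt _ ht.2) (idx_lt _ hs.2) hne (X_mem _ t) (X_mem _ s)
      have h2 : |X t - X s| ≤ r :=
        abs_le.mpr ⟨by linarith [ht.1.1, hs.1.2], by linarith [ht.1.2, hs.1.1]⟩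
      linarith [dd_lt n]
    refine (measure_mono hsub).trans (le_of_eq ?_)
    rw [Real.volume_Ico]
    congr 1
    have := D1 (n + 1)
    field_simp
    ring

theorem dim_ne : dimH K ≠ 0 := by
  intro h0
  set Y : ℝ → ℝ := Function.invFunOn X (Ico 0 1) with hY
  have hYX : ∀ t ∈ Ico (0 : ℝ) 1, Y (X t) = t := fun t ht =>
    Set.InjOn.leftInvOn_invFunOn (fun _ ha _ hb hab => X_inj ha hb hab) ht
  have hH : HolderOnWith 2 (1 / 5 : NNReal) Y (X '' Ico 0 1) := by
    rintro _ ⟨s, hs, rfl⟩ _ ⟨t, ht, rfl⟩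
    rw [hYX s hs, hYX t ht, edist_dist, edist_dist, Real.dist_eq, Real.dist_eq,
      ENNReal.ofReal_rpow_of_nonneg (abs_nonneg _) (by positivity)]
    have e : ((2 : NNReal) : ENNReal) = ENNReal.ofReal 2 := by simp
    rw [e, ← ENNReal.ofReal_mul (by norm_num)]
    refine ENNReal.ofReal_le_ofReal (le_of_pow_le_pow_left₀ (n := 5) (by norm_num) (by positivity) ?_)
    rw [mul_pow, ← Real.rpow_natCast (|X s - X t| ^ _), ← Real.rpow_mul (abs_nonneg _)]
    have := X_anti hs ht
    have h3 := abs_nonneg (X s - X t)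
    norm_num
    linarith
  have h1 := hH.dimH_image_le (by norm_num)
  have h2 : dimH (X '' Ico 0 1) = 0 :=
    le_antisymm ((dimH_mono (by rintro _ ⟨t, ht, rfl⟩; exact X_mem_K ht)).trans h0.le) (by simp)
  have h3 : Y '' (X '' Ico 0 1) = Ico 0 1 := by
    rw [image_image]
    exact (image_congr hYX).trans (image_id' _)
  rw [h2, h3, Real.dimH_of_nonempty_interior (by simp)] at h1
  simp at h1

noncomputable def HH (r : NNReal) : ENNReal := ⨆ x : ℝ, mu (Icc x (x + r))

theorem HH_ne (r : NNReal) : HH r ≠ ⊤ :=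
  ne_top_of_le_ne_top ENNReal.one_ne_top (iSup_le (fun _ => prob_le_one))

noncomputable def hh (r : NNReal) : NNReal := (HH r).toNNReal

theorem hh_coe (r : NNReal) : (hh r : ENNReal) = HH r := ENNReal.coe_toNNReal (HH_ne r)

theorem HH_mono : Monotone HH := fun r s h =>
  iSup_mono (fun x => measure_mono (Icc_subset_Icc le_rfl (by
    have : (r : ℝ) ≤ s := h
    linarith)))

theorem hh_mono : Monotone hh := fun r s h => by
  rw [← ENNReal.coe_le_coe, hh_coe, hh_coe]; exact HH_mono h

theorem hh_add (r s : NNReal) : hh (r + s) ≤ hh r + hh s := by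
  rw [← ENNReal.coe_le_coe, ENNReal.coe_add, hh_coe, hh_coe, hh_coe]
  refine iSup_le (fun x => ?_)
  have : Icc x (x + ((r + s : NNReal) : ℝ)) ⊆ Icc x (x + r) ∪ Icc (x + r) (x + r + s) := by
    rw [NNReal.coe_add, ← add_assoc]
    exact Icc_subset_Icc_union_Icc
  exact (measure_mono this).trans ((measure_union_le _ _).trans
    (add_le_add (le_iSup (fun x : ℝ => mu (Icc x (x + r))) x)
      (le_iSup (fun x : ℝ => mu (Icc x (x + s))) (x + r))))

theorem hh_small {e : ℝ} (he : 0 ≤ e) {r : NNReal} (hr : 16 * (r : ℝ) ≤ e ^ 5) : (hh r : ℝ) ≤ e := by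
  have : (hh r : ENNReal) ≤ ENNReal.ofReal e := by
    rw [hh_coe]; exact iSup_le (fun x => mu_small he hr x)
  rwa [← ENNReal.ofReal_coe_nnreal, ENNReal.ofReal_le_ofReal_iff he] at this

theorem hh_zero : hh 0 = 0 := by
  have := hh_small (e := 0) le_rfl (r := 0) (by simp)
  exact le_antisymm (by exact_mod_cast this) (by simp)

theorem hh_cont : Continuous hh := by
  refine (Metric.uniformContinuous_iff.mpr (fun e he => ⟨(e / 2) ^ 5 / 16, by positivity, ?_⟩)).continuous
  have key : ∀ a b : NNReal, a ≤ b → dist a b < (e / 2) ^ 5 / 16 → dist (hh a) (hh b) < e := by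
    intro a b hab hd
    obtain ⟨s, rfl⟩ := exists_add_of_le hab
    rw [NNReal.dist_eq] at hd ⊢
    have h1 : (hh (a + s) : ℝ) ≤ hh a + hh s := by exact_mod_cast hh_add a s
    have h2 : (hh a : ℝ) ≤ hh (a + s) := by exact_mod_cast hh_mono hab
    have h3 : (s : ℝ) < (e / 2) ^ 5 / 16 := by
      have := (abs_lt.mp hd).1
      push_cast at this
      linarith
    have h4 := hh_small (e := e / 2) (by linarith) (r := s) (by linarith)
    rw [abs_lt]
    constructor <;> linarith
  intro a b hd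
  rcases le_total a b with h | h
  · exact key a b h hd
  · rw [dist_comm] at hd ⊢; exact key b a h hd

theorem mu_eq : mu = (Measure.mkMetric (fun r : ENNReal => ((hh r.toNNReal : NNReal) : ENNReal))).restrict K := by
  have h1 : mu ≤ Measure.mkMetric (fun r : ENNReal => ((hh r.toNNReal : NNReal) : ENNReal)) := by
    refine Measure.le_mkMetric _ mu 1 one_pos (fun s hs => ?_)
    have hb : Bornology.IsBounded s :=
      Metric.isBounded_iff_ediam_ne_top.mpr (ne_top_of_le_ne_top ENNReal.one_ne_top hs)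
    rw [hh_coe]
    refine le_trans (measure_mono ?_)
      (le_iSup (fun x : ℝ => mu (Icc x (x + ((Metric.ediam s).toNNReal : NNReal)))) (sInf s))
    refine hb.subset_Icc_sInf_sSup.trans (Icc_subset_Icc le_rfl ?_)
    have : (((Metric.ediam s).toNNReal : NNReal) : ℝ) = Metric.diam s := rfl
    rw [this, Real.diam_eq hb]; linarith
  have h2 : Measure.mkMetric (fun r : ENNReal => ((hh r.toNNReal : NNReal) : ENNReal)) K ≤ 1 := by
    have hd : ∀ n m, Metric.ediam (C (n + 1) m) ≤ ENNReal.ofReal (dd n) := fun n m =>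
      Metric.ediam_le (fun x hx y hy => by
        rw [edist_dist, Real.dist_eq]; exact ENNReal.ofReal_le_ofReal (C_diam hx hy))
    refine (Measure.mkMetric_le_liminf_sum (ι := fun n => Fin (D (n + 1))) K (l := atTop)
      (fun n => ENNReal.ofReal (dd n)) (by simpa using ENNReal.tendsto_ofReal dd_tendsto)
      (fun n i => C (n + 1) i) (Eventually.of_forall (fun n i => hd n i))
      (Eventually.of_forall (fun n x hx => ?_)) _).trans ?_
    · obtain ⟨m, hm, hxm⟩ := mem_K.mp hx (n + 1)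
      exact mem_iUnion.mpr ⟨⟨m, hm⟩, hxm⟩
    · refine liminf_le_of_frequently_le' (Frequently.of_forall (fun n => ?_))
      calc _ ≤ ∑ _i : Fin (D (n + 1)), ENNReal.ofReal (D (n + 1) : ℝ)⁻¹ := by
            refine Finset.sum_le_sum (fun i _ => ?_)
            rw [hh_coe]
            refine iSup_le (fun x => mu_cell n ?_ x)
            exact ENNReal.toReal_le_of_le_ofReal (dd_pos n).le (hd n i)
        _ = 1 := by
            have := D1 (n + 1)
            rw [Finset.sum_const, Finset.card_univ, Fintype.card_fin, nsmul_eq_mul,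
              ← ENNReal.ofReal_natCast, ← ENNReal.ofReal_mul (by linarith), mul_inv_cancel₀ (by linarith)]
            simp
  have h3 : mu = mu.restrict K := (Measure.restrict_eq_self_of_ae_mem mu_K).symm
  have h4 : mu ≤ (Measure.mkMetric (fun r : ENNReal => ((hh r.toNNReal : NNReal) : ENNReal))).restrict K := by
    conv_lhs => rw [h3]
    exact Measure.restrict_mono subset_rfl h1
  refine Measure.eq_of_le_of_measure_univ_eq h4 (le_antisymm (h4 _) ?_)
  rw [Measure.restrict_apply_univ, measure_univ]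
  exact h2

end Pool.Agent.H.MP_816d1e_an
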